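import Pool.Agent.UL5.Stmts2
import Pool.Agent.UL3.Stmts

/-!
# Squad UL5: the theorem

`C` is a planar compact convex set, centrally symmetric about `c`, `p` is a point outside of its plane.
`K` is the cone `conv (C ∪ {p})`, the double cone `D = conv (C ∪ {p, 2 c - p})`, or one of the two halves of
`D` cut off by a plane through `c` (theorem of helper73, note 3965).
-/

set_option autoImplicit false

namespace Pool.Agent.UL5.H31

open MeasureTheory Set Pool.Agent.UL3 Pool.Agent.UL4 Pool.Agent.UL5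

/-- a half of a centrally symmetric body with a good lattice -/
theorem half (hL : LpgStmt) {D K : Set E3} {c m : E3} (hD : IsCompact D) (hDc : Convex ℝ D)
    (hDs : ∀ x ∈ D, (2 : ℝ) • c - x ∈ D) (hm : m ≠ 0)
    (hK : K = {x | x ∈ D ∧ 0 ≤ inner ℝ (x - c) m}) (hi : (interior K).Nonempty) (hg : Good4 D) :
    ∃ f : ℕ → (E3 ≃ᵢ E3),
      (∀ i j : ℕ, i ≠ j → Disjoint (interior ((f i) '' K)) (interior ((f j) '' K))) ∧
      ENNReal.ofReal (16 / 21) ≤ Filter.limsup
        (fun R : ℝ => volume ((⋃ i : ℕ, (f i) '' K) ∩ Metric.ball (0 : E3) R) /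
          volume (Metric.ball (0 : E3) R)) Filter.atTop := by
  have hclosed : IsClosed {x : E3 | 0 ≤ inner ℝ (x - c) m} :=
    isClosed_le continuous_const (by fun_prop)
  have hK' : K = D ∩ {x : E3 | 0 ≤ inner ℝ (x - c) m} := by
    rw [hK]; rfl
  have hKD : K ⊆ D := by
    rw [hK']
    exact inter_subset_left
  have hKc : IsCompact K := by
    rw [hK']
    exact hD.inter_right hclosed
  have hhalf : Convex ℝ {x : E3 | 0 ≤ inner ℝ (x - c) m} := by
    intro x hx y hy a b ha hb hab
    simp only [mem_setOf_eq] at hx hy ⊢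
    have h1 : a • x + b • y - c = a • (x - c) + b • (y - c) := by
      have : c = (a + b) • c := by rw [hab, one_smul]
      nth_rewrite 1 [this]
      module
    rw [h1, inner_add_left, inner_smul_left, inner_smul_left]
    simp only [conj_trivial]
    positivity
  have hKv : Convex ℝ K := by
    rw [hK']
    exact hDc.inter hhalf
  obtain ⟨v, hv, hd, hdt⟩ := hg
  have hint : interior K ⊆ interior D := interior_mono hKD
  -- the interior of `D` is symmetric
  have hsym : ∀ x ∈ interior D, (2 : ℝ) • c - x ∈ interior D := by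
    intro x hx
    have h1 : (fun y => (2 : ℝ) • c - y) ⁻¹' D = D := by
      ext y
      constructor
      · intro hy
        have := hDs _ hy
        simpa using this
      · intro hy
        exact hDs y hy
    have h2 : (fun y => (2 : ℝ) • c - y) ⁻¹' interior D ⊆ interior D := by
      have h3 : IsOpen ((fun y => (2 : ℝ) • c - y) ⁻¹' interior D) :=
        isOpen_interior.preimage (by fun_prop)
      refine interior_maximal ?_ h3
      intro y hy
      have h4 : y ∈ (fun y => (2 : ℝ) • c - y) ⁻¹' D := preimage_mono interior_subset hy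
      rwa [h1] at h4
    apply h2
    show (2 : ℝ) • c - ((2 : ℝ) • c - x) ∈ interior D
    rwa [sub_sub_cancel]
  have hz : ∀ n : Fin 3 → ℤ, c + ∑ i, (n i : ℝ) • v i ∉ interior K := by
    intro n hn
    by_cases h0 : n = 0
    · subst h0
      have h1 : c ∈ interior K := by simpa using hn
      -- points on the wrong side near `c`
      rw [mem_interior_iff_mem_nhds, Metric.mem_nhds_iff] at h1
      obtain ⟨ε, hε, h2⟩ := h1
      have hmn : 0 < ‖m‖ := norm_pos_iff.2 hm
      have h3 : c - (ε / (2 * ‖m‖)) • m ∈ Metric.ball c ε := by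
        rw [Metric.mem_ball, dist_eq_norm]
        have : c - (ε / (2 * ‖m‖)) • m - c = -((ε / (2 * ‖m‖)) • m) := by abel
        rw [this, norm_neg, norm_smul, Real.norm_of_nonneg (by positivity)]
        have : ε / (2 * ‖m‖) * ‖m‖ = ε / 2 := by
          field_simp
        rw [this]
        linarith
      have h4 := h2 h3
      rw [hK] at h4
      have h5 := h4.2
      have h6 : c - (ε / (2 * ‖m‖)) • m - c = -((ε / (2 * ‖m‖)) • m) := by abel
      rw [h6, inner_neg_left, inner_smul_left, real_inner_self_eq_norm_sq] at h5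
      simp only [conj_trivial] at h5
      have h7 : 0 < ε / (2 * ‖m‖) * ‖m‖ ^ 2 := by positivity
      linarith
    · have h1 : c + ∑ i, (n i : ℝ) • v i ∈ interior D := hint hn
      have h2 := hsym _ h1
      refine Set.disjoint_left.1 (hd n h0) h1 ⟨_, h2, ?_⟩
      show (2 : ℝ) • c - (c + ∑ i, (n i : ℝ) • v i) + (2 : ℝ) • ∑ i, (n i : ℝ) • v i = _
      module
  have hdK : ∀ n : Fin 3 → ℤ, n ≠ 0 → Disjoint (interior K)
      ((fun x => x + (2 : ℝ) • ∑ i, (n i : ℝ) • v i) '' interior K) := fun n hn =>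
    (hd n hn).mono hint (image_mono hint)
  obtain ⟨f, -, hf2, hf3⟩ := hL K v c hKc hKv hi hv hdK hz
  -- the volume
  have hvol : V D ≤ 2 * V K := by
    have hsub : D ⊆ K ∪ (fun y => (2 : ℝ) • c - y) '' K := by
      intro x hx
      by_cases h : 0 ≤ inner ℝ (x - c) m
      · left
        rw [hK]
        exact ⟨hx, h⟩
      · right
        refine ⟨(2 : ℝ) • c - x, ?_, ?_⟩
        · rw [hK]
          refine ⟨hDs x hx, ?_⟩
          have h1 : (2 : ℝ) • c - x - c = -(x - c) := by module
          rw [h1, inner_neg_left]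
          linarith [not_le.1 h]
        · show (2 : ℝ) • c - ((2 : ℝ) • c - x) = x
          rw [sub_sub_cancel]
    have hrefl : (volume : Measure E3) ((fun y => (2 : ℝ) • c - y) '' K) = volume K := by
      have h0 : (fun y : E3 => (2 : ℝ) • c - y) '' K =
          (fun y : E3 => y + (2 : ℝ) • c) '' (Neg.neg '' K) := by
        rw [image_image]
        refine image_congr fun y _ => ?_
        abel
      rw [h0, image_add_right, measure_preimage_add_right, image_neg_eq_neg, Measure.measure_neg]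
    have h1 : (volume : Measure E3) D ≤ volume K + volume K :=
      le_trans (measure_mono hsub) (le_trans (measure_union_le _ _) (by rw [hrefl]))
    have h2 : (volume : Measure E3) K ≠ ⊤ := hKc.measure_ne_top
    unfold V
    rw [Measure.real, Measure.real]
    have h3 := ENNReal.toReal_mono (ENNReal.add_ne_top.2 ⟨h2, h2⟩) h1
    rw [ENNReal.toReal_add h2 h2] at h3
    linarith
  refine ⟨f, hf2, le_trans (ENNReal.ofReal_le_ofReal ?_) hf3⟩
  rw [div_le_div_iff₀ (by norm_num) (by positivity)]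
  nlinarith [hdt, hvol]

theorem cpt_of {K K' : Set E3} {T : E3 ≃L[ℝ] E3} {c : E3} (h : (fun x => T (x - c)) '' K = K')
    (hK' : IsCompact K') : IsCompact K := by
  have h1 : K = (fun y => T.symm y + c) '' K' := by
    rw [← h, image_image]
    simp
  rw [h1]
  exact hK'.image (by fun_prop)

theorem top (hDC : DcbStmt) (hI' : InbStmt) (hS' : SdcStmt) (hG' : DgdStmt) (hL : LpgStmt) (hL' : LpdStmt)
    (hI : InaStmt) (hS : StcStmt) (hG : CgdStmt) :
    ∀ (C : Set (EuclideanSpace ℝ (Fin 3))) (c n p : EuclideanSpace ℝ (Fin 3)),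
      IsCompact C → Convex ℝ C → C.Nonempty → (∀ x ∈ C, (2 : ℝ) • c - x ∈ C) →
      (∀ x ∈ C, inner ℝ (x - c) n = 0) → inner ℝ (p - c) n ≠ 0 →
      ∀ K : Set (EuclideanSpace ℝ (Fin 3)),
        (K = convexHull ℝ (C ∪ {p}) ∨ K = convexHull ℝ (C ∪ {p, (2 : ℝ) • c - p}) ∨
          ∃ m : EuclideanSpace ℝ (Fin 3), m ≠ 0 ∧
            K = {x | x ∈ convexHull ℝ (C ∪ {p, (2 : ℝ) • c - p}) ∧ 0 ≤ inner ℝ (x - c) m}) →
        (interior K).Nonempty →
        ∃ f : ℕ → (EuclideanSpace ℝ (Fin 3) ≃ᵢ EuclideanSpace ℝ (Fin 3)),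
          (∀ i j : ℕ, i ≠ j →
            Disjoint (interior ((f i) '' K)) (interior ((f j) '' K))) ∧
          ENNReal.ofReal (16 / 21) ≤
            Filter.limsup
              (fun R : ℝ =>
                volume ((⋃ i : ℕ, (f i) '' K) ∩
                    Metric.ball (0 : EuclideanSpace ℝ (Fin 3)) R) /
                  volume (Metric.ball (0 : EuclideanSpace ℝ (Fin 3)) R))
              Filter.atTop := by
  intro C c n p h1 h2 h3 h4 h5 h6 K hK hi
  have hDv : Convex ℝ (convexHull ℝ (C ∪ {p, (2 : ℝ) • c - p})) := convex_convexHull ℝ _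
  rcases hK with hK | hK | ⟨m, hm, hK⟩
  · have hcK : Convex ℝ K := hK ▸ convex_convexHull ℝ _
    obtain ⟨T, C₀, hC₀, hT⟩ := hS C c n p h1 h2 h3 h4 h5 h6 (hK ▸ hi)
    rw [← hK] at hT
    have hKK : IsCompact K := cpt_of hT (hDC C₀ hC₀).2.1.cpt
    have hg : Good3 K := hI K T c (hT ▸ hG C₀ hC₀)
    obtain ⟨v, z, hv, hd, hz, hdt⟩ := hg
    obtain ⟨f, -, hf2, hf3⟩ := hL K v z hKK hcK hi hv hd hz
    refine ⟨f, hf2, le_trans (ENNReal.ofReal_le_ofReal ?_) hf3⟩
    rw [div_le_div_iff₀ (by norm_num) (by positivity)]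
    nlinarith [hdt]
  · have hcK : Convex ℝ K := hK ▸ hDv
    obtain ⟨T, C₀, hC₀, hT⟩ := hS' C c n p h1 h2 h3 h4 h5 h6 (hK ▸ hi)
    rw [← hK] at hT
    have hKK : IsCompact K := cpt_of hT (hDC C₀ hC₀).1.cpt
    have hg : Good4 K := hI' K T c (hT ▸ hG' C₀ hC₀)
    obtain ⟨v, hv, hd, hdt⟩ := hg
    obtain ⟨f, hf2, hf3⟩ := hL' K v hKK hcK hi hv hd
    refine ⟨f, hf2, le_trans (ENNReal.ofReal_le_ofReal ?_) hf3⟩
    rw [div_le_div_iff₀ (by norm_num) (by positivity)]
    nlinarith [hdt]
  · have hiD : (interior (convexHull ℝ (C ∪ {p, (2 : ℝ) • c - p}))).Nonempty := by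
      refine hi.mono (interior_mono ?_)
      rw [hK]
      exact fun x hx => hx.1
    obtain ⟨T, C₀, hC₀, hT⟩ := hS' C c n p h1 h2 h3 h4 h5 h6 hiD
    have hg : Good4 (convexHull ℝ (C ∪ {p, (2 : ℝ) • c - p})) := hI' _ T c (hT ▸ hG' C₀ hC₀)
    refine half hL (cpt_of hT (hDC C₀ hC₀).1.cpt) hDv ?_ hm hK hi hg
    -- the double cone is symmetric about `c`
    intro x hx
    have h8 : ∀ y ∈ C ∪ {p, (2 : ℝ) • c - p}, (2 : ℝ) • c - y ∈ C ∪ {p, (2 : ℝ) • c - p} := by
      rintro y (hy | rfl | hy)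
      · exact Or.inl (h4 y hy)
      · exact Or.inr (Or.inr rfl)
      · right; left
        rw [mem_singleton_iff.1 hy, sub_sub_cancel]
    have h9 : convexHull ℝ (C ∪ {p, (2 : ℝ) • c - p}) ⊆
        (fun y => (2 : ℝ) • c - y) ⁻¹' convexHull ℝ (C ∪ {p, (2 : ℝ) • c - p}) := by
      refine convexHull_min (fun y hy => subset_convexHull ℝ _ (h8 y hy)) ?_
      intro y hy z hz a b ha hb hab
      show (2 : ℝ) • c - (a • y + b • z) ∈ convexHull ℝ (C ∪ {p, (2 : ℝ) • c - p})
      have h10 : (2 : ℝ) • c - (a • y + b • z) = a • ((2 : ℝ) • c - y) + b • ((2 : ℝ) • c - z) := by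
        have : (2 : ℝ) • c = (a + b) • (2 : ℝ) • c := by rw [hab, one_smul]
        nth_rewrite 1 [this]
        module
      rw [h10]
      exact hDv hy hz ha hb hab
    exact h9 hx

end Pool.Agent.UL5.H31
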